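import Pool.Agent.Hhelper71.Mult.Bound

/-!
# MP_fc334d_co: subgroup codes whose coordinates are closed under bounded multipliers up to sign
-/

namespace Pool.Agent.Results.MP_fc334d_co.BoundedMultipliers

/-- The Shannon capacity of the fraction graph `E_{p/q}` (as in the frozen statement). -/
noncomputable def Theta (p q : ℕ) : ℝ :=
  ⨆ n : ℕ, ((sSup {k : ℕ | ∃ S : Finset (Fin (n + 1) → ZMod p), S.card = k ∧
      ∀ x ∈ S, ∀ y ∈ S, x ≠ y → ∃ i, q ≤ (x i - y i).val ∧ q ≤ (y i - x i).val} : ℕ) : ℝ)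
        ^ ((1 : ℝ) / ((n : ℝ) + 1))

/-- `H` is a subgroup code: an independent set of the `n`-th strong power of `E_{a/b}`. -/
def IsCode {a n : ℕ} (b : ℕ) (H : AddSubgroup (Fin n → ZMod a)) : Prop :=
  ∀ x ∈ H, x ≠ 0 → ∃ i, b ≤ (x i).val ∧ b ≤ (-x i).val

/-- On `H`, `g` times the coordinate `i` is zero, or the coordinate `j`, or minus the
coordinate `j`. -/
def Multiple {a n : ℕ} (H : AddSubgroup (Fin n → ZMod a)) (g : ℕ) (i j : Fin n) : Prop :=
  (∀ x ∈ H, (g : ZMod a) * x i = 0) ∨ (∀ x ∈ H, (g : ZMod a) * x i = x j) ∨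
    (∀ x ∈ H, (g : ZMod a) * x i = -x j)

theorem result (p q G : ℕ) (hq : 0 < q) (hpq : 2 * q ≤ p) (hG : G ^ 3 * (p - 2 * q) < p) :
    (∀ a b n : ℕ, 0 < b → a * q = b * p → ∀ H : AddSubgroup (Fin n → ZMod a), IsCode b H →
      ∀ R J : Finset (Fin n), Disjoint R J →
        (∀ i ∈ R, ∃ g : ℕ, 2 ≤ g ∧ g ≤ G ∧ ∃ j ∈ R ∪ J, Multiple H g i j) →
          (Nat.card H : ℝ) ≤
            2 ^ R.card * ((p : ℝ) / q) ^ J.card * Theta p q ^ (n - R.card - J.card)) ∧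
      (2 * q < p → 2 < Theta p q) :=
  ⟨fun _ _ _ hb hab H hH R J hRJ hR =>
    Hhelper71.Dbl.main_bound2 hq hpq hG hb hab H hH R J hRJ hR,
    fun h => Hhelper71.Dbl.two_lt_theta hq h⟩

end Pool.Agent.Results.MP_fc334d_co.BoundedMultipliers
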