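import Pool.Agent.Hhelper71.Dbl.Shannon
import Pool.Agent.Hhelper71.Dbl.Sharp

/-!
# MP_fc334d_co: subgroup codes whose coordinates are closed under doubling up to sign
-/

namespace Pool.Agent.Results.MP_fc334d_co.DoublingClosed

/-- The Thue-Morse sequence: the parity of the sum of the binary digits of `n`. -/
def tm (n : ℕ) : ℕ := (Nat.digits 2 n).sum % 2

/-- The Thue-Morse constant `0.412454...`. -/
noncomputable def tau : ℝ := ∑' n : ℕ, (tm n : ℝ) / 2 ^ (n + 1)

/-- The numbers `1, 2, 7, 106, ...`. -/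
def M : ℕ → ℤ
  | 0 => 1
  | j + 1 => (2 ^ (2 ^ j) - 1) * M j + 1

/-- The numbers `1/3, 2/5, 7/17, 106/257, ...`; they increase to `tau`. -/
noncomputable def t (j : ℕ) : ℝ := (M j : ℝ) / (2 ^ (2 ^ j) + 1)

/-- The Shannon capacity of the fraction graph `E_{p/q}` (as in the frozen statement). -/
noncomputable def Theta (p q : ℕ) : ℝ :=
  ⨆ n : ℕ, ((sSup {k : ℕ | ∃ S : Finset (Fin (n + 1) → ZMod p), S.card = k ∧
      ∀ x ∈ S, ∀ y ∈ S, x ≠ y → ∃ i, q ≤ (x i - y i).val ∧ q ≤ (y i - x i).val} : ℕ) : ℝ)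
        ^ ((1 : ℝ) / ((n : ℝ) + 1))

/-- `H` is a subgroup code: an independent set of the `n`-th strong power of `E_{a/b}`. -/
def IsCode {a n : ℕ} (b : ℕ) (H : AddSubgroup (Fin n → ZMod a)) : Prop :=
  ∀ x ∈ H, x ≠ 0 → ∃ i, b ≤ (x i).val ∧ b ≤ (-x i).val

/-- On `H`, twice the coordinate `i` is zero, or the coordinate `j`, or minus the coordinate `j`. -/
def Doubles {a n : ℕ} (H : AddSubgroup (Fin n → ZMod a)) (i j : Fin n) : Prop :=
  (∀ x ∈ H, 2 * x i = 0) ∨ (∀ x ∈ H, 2 * x i = x j) ∨ (∀ x ∈ H, 2 * x i = -x j)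

theorem M_eq (j : ℕ) : M j = Hhelper71.Dbl.fM j := by
  induction j with
  | zero => rfl
  | succ j ih => rw [M, Hhelper71.Dbl.fM, ih]

theorem t_eq (j : ℕ) : t j = Hhelper71.Dbl.tj j := by
  rw [t, Hhelper71.Dbl.tj, M_eq]

theorem tau_eq : tau = Hhelper71.Dbl.tau := rfl

/-- The trivial code with two words in dimension one. -/
theorem two_code {p q : ℕ} (hq : 0 < q) (hpq : 2 * q ≤ p) :
    ∃ H : AddSubgroup (Fin 1 → ZMod (2 * p)), IsCode (2 * q) H ∧ (∀ i, ∃ j, Doubles H i j) ∧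
      Nat.card H = 2 := by
  have hp : 0 < p := by omega
  have : NeZero (2 * p) := ⟨by omega⟩
  have h2p : (2 : ZMod (2 * p)) * (p : ZMod (2 * p)) = 0 := by
    have := ZMod.natCast_self (2 * p)
    push_cast at this
    exact this
  have hval : ((p : ℕ) : ZMod (2 * p)).val = p := by
    rw [ZMod.val_natCast, Nat.mod_eq_of_lt (by omega)]
  have hne : ((p : ℕ) : ZMod (2 * p)) ≠ 0 := by
    intro h
    rw [h, ZMod.val_zero] at hval
    omega
  set g : Fin 1 → ZMod (2 * p) := fun _ => (p : ZMod (2 * p)) with hg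
  have hmem : ∀ x ∈ AddSubgroup.zmultiples g, ∀ i, 2 * x i = 0 ∧ (x i = 0 ∨ x i = p) := by
    intro x hx i
    obtain ⟨k, rfl⟩ := AddSubgroup.mem_zmultiples_iff.1 hx
    have h1 : (k • g) i = (k : ZMod (2 * p)) * p := by
      rw [Pi.smul_apply, hg, zsmul_eq_mul]
    rw [h1]
    refine ⟨by linear_combination (k : ZMod (2 * p)) * h2p, ?_⟩
    rcases Int.even_or_odd' k with ⟨r, rfl | rfl⟩
    · left
      push_cast
      linear_combination (r : ZMod (2 * p)) * h2p
    · right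
      push_cast
      linear_combination (r : ZMod (2 * p)) * h2p
  refine ⟨AddSubgroup.zmultiples g, ?_, fun i => ⟨i, Or.inl fun x hx => (hmem x hx i).1⟩, ?_⟩
  · intro x hx hx0
    refine ⟨0, ?_⟩
    rcases (hmem x hx 0).2 with h | h
    · exfalso
      apply hx0
      funext i
      rw [Subsingleton.elim i 0, h]
      rfl
    · rw [h, hval, ZMod.neg_val, if_neg hne, hval]
      omega
  · rw [Nat.card_zmultiples]
    refine addOrderOf_eq_prime ?_ ?_
    · funext i
      rw [Pi.smul_apply, hg]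
      dsimp only
      rw [nsmul_eq_mul]
      push_cast
      exact h2p
    · intro h
      exact hne (congrFun h 0)

/-- Let `c` be `2` if `q / p` is at least the Thue-Morse constant and `(2 ^ 2 ^ j + 1) ^ (1 / 2 ^ j)`
for the least `j` with `q / p ≤ t j` otherwise. -/
theorem result (p q : ℕ) (hq : 0 < q) (hpq : 2 * q ≤ p) :
    ∃ c : ℝ, ((tau * p ≤ q ∧ c = 2) ∨
        ∃ j : ℕ, (∀ i < j, t i * p < q) ∧ (q : ℝ) ≤ t j * p ∧
          c = ((2 : ℝ) ^ (2 ^ j) + 1) ^ ((1 : ℝ) / 2 ^ j)) ∧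
      (∀ a b n : ℕ, 0 < b → a * q = b * p → ∀ H : AddSubgroup (Fin n → ZMod a), IsCode b H →
        ∀ R J : Finset (Fin n), Disjoint R J → (∀ i ∈ R, ∃ j ∈ R ∪ J, Doubles H i j) →
          (Nat.card H : ℝ) ≤
            c ^ R.card * ((p : ℝ) / q) ^ J.card * Theta p q ^ (n - R.card - J.card)) ∧
      (∃ a b n : ℕ, 0 < b ∧ 0 < n ∧ a * q = b * p ∧ ∃ H : AddSubgroup (Fin n → ZMod a),
        IsCode b H ∧ (∀ i, ∃ j, Doubles H i j) ∧ (Nat.card H : ℝ) = c ^ n) ∧
      (2 * q < p → 2 < Theta p q) := by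
  have hp : 0 < p := by omega
  have hp0 : (0 : ℝ) < p := by exact_mod_cast hp
  by_cases htau : tau * p ≤ q
  · refine ⟨2, Or.inl ⟨htau, rfl⟩, ?_, ?_, fun h => Hhelper71.Dbl.two_lt_theta hq h⟩
    · intro a b n hb hab H hH R J hRJ hR
      refine Hhelper71.Dbl.main_bound hq hpq hb hab le_rfl (fun i => Or.inl ?_) H hH R J hRJ hR
      have h1 := Hhelper71.Dbl.tj_lt_tau i
      calc Hhelper71.Dbl.tj i * p < tau * p := mul_lt_mul_of_pos_right h1 hp0
        _ ≤ q := htau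
    · obtain ⟨H, hH1, hH2, hH3⟩ := two_code hq hpq
      refine ⟨2 * p, 2 * q, 1, by omega, one_pos, by ring, H, hH1, hH2, ?_⟩
      rw [hH3]
      norm_num
  · push Not at htau
    have hex : ∃ j, (q : ℝ) ≤ t j * p := by
      have h1 : (q : ℝ) / p < Hhelper71.Dbl.tau := by
        rw [div_lt_iff₀ hp0]
        exact htau
      obtain ⟨j, hj⟩ := Hhelper71.Dbl.exists_lt_tj h1
      refine ⟨j, ?_⟩
      rw [t_eq]
      rw [div_lt_iff₀ hp0] at hj
      exact hj.le
    classical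
    set j := Nat.find hex with hj
    have hj1 : (q : ℝ) ≤ t j * p := Nat.find_spec hex
    have hj2 : ∀ i < j, t i * p < q := fun i hi => not_le.1 (Nat.find_min hex hi)
    set c : ℝ := ((2 : ℝ) ^ (2 ^ j) + 1) ^ ((1 : ℝ) / 2 ^ j) with hc
    have hcj : c ^ (2 ^ j) = 2 ^ (2 ^ j) + 1 := by
      rw [hc, ← Real.rpow_natCast, ← Real.rpow_mul (by positivity)]
      push_cast
      rw [one_div_mul_cancel (by positivity), Real.rpow_one]
    have hc0 : 0 ≤ c := Real.rpow_nonneg (by positivity) _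
    have hc2 : 2 ≤ c := by
      by_contra h
      push Not at h
      have h1 : c ^ (2 ^ j) < 2 ^ (2 ^ j) := pow_lt_pow_left₀ h hc0 (by positivity)
      rw [hcj] at h1
      linarith
    refine ⟨c, Or.inr ⟨j, hj2, hj1, rfl⟩, ?_, ?_, fun h => Hhelper71.Dbl.two_lt_theta hq h⟩
    · intro a b n hb hab H hH R J hRJ hR
      refine Hhelper71.Dbl.main_bound hq hpq hb hab hc2 (fun i => ?_) H hH R J hRJ hR
      by_cases hi : i < j
      · left
        rw [← t_eq]
        exact hj2 i hi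
      · right
        intro m hm
        push Not at hi
        exact Hhelper71.Dbl.step_cond hc2 hcj
          ((pow_le_pow_right₀ (by norm_num) hi).trans hm)
    · have hN : (0 : ℝ) < 2 ^ (2 ^ j) + 1 := by positivity
      obtain ⟨H, hH1, hH2, hH3⟩ := Hhelper71.Dbl.fermat_code (j := j) hq hpq (by
        rw [t_eq, Hhelper71.Dbl.tj, div_mul_eq_mul_div, le_div_iff₀ hN] at hj1
        have h1 : (q : ℝ) * (2 ^ (2 ^ j) + 1) ≤ p * (Hhelper71.Dbl.fM j : ℝ) := by linarith
        exact_mod_cast h1)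
      refine ⟨p * (2 ^ (2 ^ j) + 1), q * (2 ^ (2 ^ j) + 1), 2 ^ j, by positivity, by positivity,
        by ring, H, hH2, fun i => ?_, ?_⟩
      · obtain ⟨i', h | h⟩ := hH3 i
        · exact ⟨i', Or.inr (Or.inl h)⟩
        · exact ⟨i', Or.inr (Or.inr h)⟩
      · rw [hH1, hcj]
        push_cast
        ring

end Pool.Agent.Results.MP_fc334d_co.DoublingClosed
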