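import Pool.Agent.Hhelper30.Frac.Closed

/-!
# MP_fc334d_co: subgroup codes in fraction graphs, a norm bound for every representation `a/b`

`Theta p q` and `ThetaGrp a b` are the two sides of the question, written exactly as in the frozen
statement `S12583`.
-/

namespace Pool.Agent.Results.MP_fc334d_co.NormBound

open Polynomial

/-- The Shannon capacity of the fraction graph `E_{p/q}` (as in the frozen statement). -/
noncomputable def Theta (p q : ℕ) : ℝ :=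
  ⨆ n : ℕ, ((sSup {k : ℕ | ∃ S : Finset (Fin (n + 1) → ZMod p), S.card = k ∧
      ∀ x ∈ S, ∀ y ∈ S, x ≠ y → ∃ i, q ≤ (x i - y i).val ∧ q ≤ (y i - x i).val} : ℕ) : ℝ)
        ^ ((1 : ℝ) / ((n : ℝ) + 1))

/-- The subgroup Shannon capacity of `E_{a/b}` (as in the frozen statement). -/
noncomputable def ThetaGrp (a b : ℕ) : ℝ :=
  ⨆ n : ℕ, ((sSup {k : ℕ | ∃ H : AddSubgroup (Fin (n + 1) → ZMod a), Nat.card H = k ∧
      ∀ x ∈ H, x ≠ 0 → ∃ i, b ≤ (x i).val ∧ b ≤ (-x i).val} : ℕ) : ℝ)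
        ^ ((1 : ℝ) / ((n : ℝ) + 1))

/-- The norm bound: the product over `b ≤ j ≤ a - b` of `Φ_d(1)^(1/φ(d))`, `d = a / gcd(a, j)`. -/
noncomputable def W (a b : ℕ) : ℝ :=
  ∏ j ∈ Finset.Icc b (a - b), (((cyclotomic (a / Nat.gcd a j) ℤ).eval 1 : ℤ) : ℝ)
    ^ ((1 : ℝ) / ((a / Nat.gcd a j).totient : ℝ))

theorem card_le {a b n : ℕ} (hb : 0 < b) (hab : 2 * b ≤ a) (H : AddSubgroup (Fin n → ZMod a))
    (hH : ∀ x ∈ H, x ≠ 0 → ∃ i, b ≤ (x i).val ∧ b ≤ (-x i).val) :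
    (Nat.card H : ℝ) ≤ W a b ^ n := by
  have : NeZero a := ⟨by omega⟩
  exact Pool.Agent.Hhelper30.Frac.norm_bound hb hH

theorem root_le {x y : ℝ} {n : ℕ} (hx : 0 ≤ x) (hy : 0 ≤ y) (h : x ≤ y ^ (n + 1)) :
    x ^ ((1 : ℝ) / ((n : ℝ) + 1)) ≤ y := by
  have hn : (0 : ℝ) < (n : ℝ) + 1 := by positivity
  have h1 : (y ^ (n + 1)) ^ ((1 : ℝ) / ((n : ℝ) + 1)) = y := by
    rw [← Real.rpow_natCast, ← Real.rpow_mul hy]
    push_cast
    rw [mul_one_div_cancel hn.ne', Real.rpow_one]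
  calc x ^ ((1 : ℝ) / ((n : ℝ) + 1)) ≤ (y ^ (n + 1)) ^ ((1 : ℝ) / ((n : ℝ) + 1)) :=
        Real.rpow_le_rpow hx h (by positivity)
    _ = y := h1

theorem W_nonneg {a b : ℕ} (hb : 0 < b) (hab : 2 * b ≤ a) : 0 ≤ W a b := by
  refine Finset.prod_nonneg fun j hj => ?_
  refine Real.rpow_nonneg ?_ _
  rw [Finset.mem_Icc] at hj
  have hg : Nat.gcd a j ∣ a := Nat.gcd_dvd_left a j
  have h5 : Nat.gcd a j ≤ j := Nat.gcd_le_right a (by omega)
  have h1 : 1 < a / Nat.gcd a j := by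
    rw [Nat.lt_div_iff_mul_lt' hg]
    omega
  exact_mod_cast (Pool.Agent.Hhelper30.Frac.eval_nonneg h1).le

theorem thetaGrp_le {a b : ℕ} (hb : 0 < b) (hab : 2 * b ≤ a) : ThetaGrp a b ≤ W a b := by
  unfold ThetaGrp
  refine ciSup_le fun n => ?_
  refine root_le (Nat.cast_nonneg _) (W_nonneg hb hab) ?_
  set S : Set ℕ := {k : ℕ | ∃ H : AddSubgroup (Fin (n + 1) → ZMod a), Nat.card H = k ∧
      ∀ x ∈ H, x ≠ 0 → ∃ i, b ≤ (x i).val ∧ b ≤ (-x i).val} with hS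
  have hne : S.Nonempty := by
    refine ⟨Nat.card (⊥ : AddSubgroup (Fin (n + 1) → ZMod a)), ⊥, rfl, ?_⟩
    intro x hx hx0
    exact (hx0 (AddSubgroup.mem_bot.1 hx)).elim
  have hle : ∀ k ∈ S, (k : ℝ) ≤ W a b ^ (n + 1) := by
    rintro k ⟨H, rfl, hH⟩
    exact card_le hb hab H hH
  have hbdd : BddAbove S := ⟨⌊W a b ^ (n + 1)⌋₊, fun k hk => Nat.le_floor (hle k hk)⟩
  exact hle _ (Nat.sSup_mem hne hbdd)

theorem two_le_theta {p q : ℕ} (hq : 0 < q) (hpq : 2 * q ≤ p) : 2 ≤ Theta p q := by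
  have : NeZero p := ⟨by omega⟩
  have hp1 : (1 : ℝ) ≤ (p : ℝ) := by exact_mod_cast (by omega : 1 ≤ p)
  set T : ℕ → Set ℕ := fun n => {k : ℕ | ∃ S : Finset (Fin (n + 1) → ZMod p), S.card = k ∧
      ∀ x ∈ S, ∀ y ∈ S, x ≠ y → ∃ i, q ≤ (x i - y i).val ∧ q ≤ (y i - x i).val} with hT
  have hcard : ∀ n, ∀ k ∈ T n, k ≤ p ^ (n + 1) := by
    rintro n k ⟨S, rfl, -⟩
    refine (Finset.card_le_univ S).trans ?_
    rw [Fintype.card_fun, ZMod.card, Fintype.card_fin]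
  have hbd : ∀ n, BddAbove (T n) := fun n => ⟨p ^ (n + 1), fun k hk => hcard n k hk⟩
  have hne : ∀ n, (T n).Nonempty := fun n => ⟨0, ∅, rfl, by
    intro x hx
    exact absurd hx (Finset.notMem_empty x)⟩
  have hbdd : BddAbove (Set.range fun n : ℕ => ((sSup (T n) : ℕ) : ℝ) ^ ((1 : ℝ) / ((n : ℝ) + 1))) := by
    refine ⟨(p : ℝ), ?_⟩
    rintro _ ⟨n, rfl⟩
    refine root_le (Nat.cast_nonneg _) (by linarith) ?_
    have := hcard n _ (Nat.sSup_mem (hne n) (hbd n))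
    exact_mod_cast this
  have h2 : (2 : ℕ) ∈ T 0 := by
    have hlt : q < p := by omega
    have hv : ((q : ℕ) : ZMod p).val = q := ZMod.val_natCast_of_lt hlt
    have hq0 : ((q : ℕ) : ZMod p) ≠ 0 := by
      intro h
      rw [h, ZMod.val_zero] at hv
      omega
    have hneg : (-((q : ℕ) : ZMod p)).val = p - q := by
      have : NeZero ((q : ℕ) : ZMod p) := ⟨hq0⟩
      rw [ZMod.val_neg_of_ne_zero, hv]
    refine ⟨{0, fun _ => ((q : ℕ) : ZMod p)}, ?_, ?_⟩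
    · rw [Finset.card_pair]
      intro h
      exact hq0 (congrFun h 0).symm
    · intro x hx y hy hxy
      rw [Finset.mem_insert, Finset.mem_singleton] at hx hy
      refine ⟨0, ?_⟩
      rcases hx with rfl | rfl <;> rcases hy with rfl | rfl
      · exact (hxy rfl).elim
      · simp only [Pi.zero_apply, zero_sub, sub_zero, hneg, hv]
        omega
      · simp only [Pi.zero_apply, zero_sub, sub_zero, hneg, hv]
        omega
      · exact (hxy rfl).elim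
  have h3 : 2 ≤ sSup (T 0) := le_csSup (hbd 0) h2
  have h4 := le_ciSup hbdd 0
  refine le_trans ?_ h4
  have e : (1 : ℝ) / (((0 : ℕ) : ℝ) + 1) = 1 := by norm_num
  rw [e, Real.rpow_one]
  exact_mod_cast h3

theorem expo {p q a b : ℕ} (hq : 0 < q) (hpq : 2 * q ≤ p) (hb : 0 < b) (h : a * q = b * p) :
    0 < a ∧ 2 * b ≤ a ∧ 3 * ((a : ℝ) - 2 * b) / a = 3 * (1 - 2 * (q : ℝ) / p) := by
  have hp : 0 < p := by omega
  have hbp : 0 < b * p := Nat.mul_pos hb hp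
  have ha : 0 < a := by
    rcases Nat.eq_zero_or_pos a with rfl | ha
    · rw [zero_mul] at h
      omega
    · exact ha
  have haR : (0 : ℝ) < a := by exact_mod_cast ha
  have hpR : (0 : ℝ) < p := by exact_mod_cast hp
  have hR : (a : ℝ) * q = b * p := by exact_mod_cast h
  refine ⟨ha, ?_, ?_⟩
  · have h1 : b * (2 * q) ≤ a * q := by
      rw [h]
      exact Nat.mul_le_mul_left b hpq
    have h2 : (2 * b) * q ≤ a * q := by
      calc (2 * b) * q = b * (2 * q) := by ring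
        _ ≤ a * q := h1
    exact Nat.le_of_mul_le_mul_right h2 hq
  · rw [div_eq_iff haR.ne']
    have e : (q : ℝ) = b * p / a := by
      rw [eq_div_iff haR.ne']
      linarith
    rw [e]
    field_simp

/-- Main result.  Let `p ≥ 2 q > 0` and `a/b = p/q`.  Then `Θ_grp(E_{a/b}) ≤ W(a,b)`, and `W(a,b)` is at most
`2 a^(3(1-2q/p))` for even `a` and at most `a^(3(1-2q/p))` for odd `a`; so `Θ_grp(E_{a/b}) < Θ(E_{p/q})` if `a` is odd
and `a^(3(1-2q/p)) < 2`. -/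
theorem result (p q a b : ℕ) (hq : 0 < q) (hpq : 2 * q ≤ p) (hb : 0 < b) (h : a * q = b * p) :
    ThetaGrp a b ≤ W a b ∧
      W a b ≤ (if Even a then 2 else 1) * (a : ℝ) ^ (3 * (1 - 2 * (q : ℝ) / p)) ∧
      (Odd a → (a : ℝ) ^ (3 * (1 - 2 * (q : ℝ) / p)) < 2 → ThetaGrp a b < Theta p q) := by
  obtain ⟨ha, hab, e⟩ := expo hq hpq hb h
  have hW : W a b ≤ (if Even a then 2 else 1) * (a : ℝ) ^ (3 * (1 - 2 * (q : ℝ) / p)) := by
    rw [← e]
    exact Pool.Agent.Hhelper30.Frac.prod_w_le ha hb hab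
  refine ⟨thetaGrp_le hb hab, hW, fun hodd hlt => ?_⟩
  rw [if_neg (Nat.not_even_iff_odd.2 hodd), one_mul] at hW
  calc ThetaGrp a b ≤ W a b := thetaGrp_le hb hab
    _ ≤ (a : ℝ) ^ (3 * (1 - 2 * (q : ℝ) / p)) := hW
    _ < 2 := hlt
    _ ≤ Theta p q := two_le_theta hq hpq

end Pool.Agent.Results.MP_fc334d_co.NormBound
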