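import Pool.Agent.Hhelper30.FracLow.Sup

/-!
# MP_fc334d_co: from which `p / q` on have subgroup codes in dimension `n` more than `2 ^ n` words?

The threshold is at least `2 + 1 / n` in every dimension `n`, for all representations `a / b` of
`p / q` (more precisely, the number of the words of a subgroup code, in any dimension, which are
supported on a set `S` of coordinates divides `2 ^ |S|` if `|S| (p / q - 2) < 1`), and it is
`3`, `5 / 2`, `5 / 2`, `17 / 7` in the dimensions one to four.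
-/

namespace Pool.Agent.Results.MP_fc334d_co.SubgroupThresholds

/-- `H` is a subgroup code: an independent set of the `n`-th strong power of `E_{a/b}`. -/
def IsCode {a n : ℕ} (b : ℕ) (H : AddSubgroup (Fin n → ZMod a)) : Prop :=
  ∀ x ∈ H, x ≠ 0 → ∃ i, b ≤ (x i).val ∧ b ≤ (-x i).val

/-- The sizes of the independent subgroups of the `n`-th strong powers of `E_{a/b}`, for all
representations `a / b` of `p / q`. -/
def GrpSizes (n p q : ℕ) : Set ℕ :=
  {k : ℕ | ∃ a b : ℕ, 0 < b ∧ a * q = b * p ∧ ∃ H : AddSubgroup (Fin n → ZMod a),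
    Nat.card H = k ∧ IsCode b H}

open Pool.Agent.Hhelper30.FracLow in
theorem ten_grp : 10 ∈ GrpSizes 3 5 2 := by
  obtain ⟨H, h1, h2⟩ := cyclic_mem (n := 3) (N := 10) (b := 4) (p := 1) (by norm_num) one_pos
    ![1, 2, 5] 0 rfl (by decide +kernel)
  exact ⟨10 * 1, 4, by norm_num, by norm_num, H, h1, h2⟩

open Pool.Agent.Hhelper30.FracLow in
theorem three_grp : 3 ∈ GrpSizes 1 3 1 := by
  obtain ⟨H, h1, h2⟩ := cyclic_mem (n := 1) (N := 3) (b := 1) (p := 1) (by norm_num) one_pos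
    (fun _ => 1) 0 rfl (by decide +kernel)
  exact ⟨3 * 1, 1, by norm_num, by norm_num, H, h1, h2⟩

open Pool.Agent.Hhelper30.FracLow in
/-- **Thresholds for subgroup codes with more than `2 ^ n` words.** -/
theorem result (p q : ℕ) (hq : 0 < q) (hpq : 2 * q ≤ p) :
    (∀ a b n : ℕ, 0 < b → a * q = b * p → ∀ H : AddSubgroup (Fin n → ZMod a), IsCode b H →
      ∀ S : Finset (Fin n), (S.card : ℝ) * ((p : ℝ) / q - 2) < 1 →
        Nat.card {x : Fin n → ZMod a // x ∈ H ∧ ∀ i, i ∉ S → x i = 0} ∣ 2 ^ S.card) ∧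
    (∀ n : ℕ, (∃ k ∈ GrpSizes n p q, 2 ^ n < k) → q ≤ n * (p - 2 * q)) ∧
    ((∃ k ∈ GrpSizes 1 p q, 2 < k) ↔ 3 * q ≤ p) ∧
    ((∃ k ∈ GrpSizes 2 p q, 4 < k) ↔ 5 * q ≤ 2 * p) ∧
    ((∃ k ∈ GrpSizes 3 p q, 8 < k) ↔ 5 * q ≤ 2 * p) ∧
    ((∃ k ∈ GrpSizes 4 p q, 16 < k) ↔ 17 * q ≤ 7 * p) := by
  have hp : 0 < p := by omega
  refine ⟨?_, ?_, ⟨?_, ?_⟩, ⟨?_, ?_⟩, ⟨?_, ?_⟩, ⟨?_, ?_⟩⟩
  · intro a b n hb hab H hH S hS
    obtain ⟨ha, -⟩ := repr_pos hb hq hpq hab
    have : NeZero a := ⟨ha.ne'⟩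
    have hS' : S.card * (p - 2 * q) < q := by
      have hq' : (0 : ℝ) < q := by exact_mod_cast hq
      have h1 : (S.card : ℝ) * ((p : ℝ) - 2 * q) < q := by
        have h2 : (S.card : ℝ) * ((p : ℝ) / q - 2) * q < 1 * q :=
          mul_lt_mul_of_pos_right hS hq'
        have h3 : (S.card : ℝ) * ((p : ℝ) / q - 2) * q = (S.card : ℝ) * ((p : ℝ) - 2 * q) := by
          field_simp
        rw [h3, one_mul] at h2
        exact h2
      have h4 : ((S.card * (p - 2 * q) : ℕ) : ℝ) < q := by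
        rw [Nat.cast_mul, Nat.cast_sub hpq]
        push_cast
        exact h1
      exact_mod_cast h4
    exact card_part_dvd hb hq hpq hab hH hS'
  · rintro n ⟨k, ⟨a, b, hb, hab, H, rfl, hH⟩, hk⟩
    by_contra hcon
    push Not at hcon
    have h1 := Nat.le_of_dvd (by positivity) (card_le_two_pow hb hq hpq hab hcon hH)
    omega
  · rintro ⟨k, ⟨a, b, hb, hab, H, rfl, hH⟩, hk⟩
    obtain ⟨ha, -⟩ := repr_pos hb hq hpq hab
    have : NeZero a := ⟨ha.ne'⟩
    have h1 := sizes_le_one hb hq hpq hab _ (grp_sizes hH)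
    exact (Nat.le_div_iff_mul_le hq).1 (by omega : 3 ≤ p / q)
  · intro h
    exact ⟨3, grpSizes_mono one_pos (by norm_num) hq (by omega) three_grp, by norm_num⟩
  · rintro ⟨k, hk, hk2⟩
    by_contra hcon
    have h1 := (isGreatest_two_pow (n := 2) hq hpq (by omega)).2 hk
    omega
  · intro h
    exact ⟨5, grpSizes_mono (p := 5) (q := 2) (by norm_num) (by norm_num) hq (by omega)
      (plane_mem (p := 5) (q := 2) (by norm_num) (by norm_num)), by norm_num⟩
  · rintro ⟨k, hk, hk2⟩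
    by_contra hcon
    have h1 := (space hq hpq (by omega)).2 hk
    omega
  · intro h
    exact ⟨10, grpSizes_mono (p := 5) (q := 2) (by norm_num) (by norm_num) hq (by omega)
      ten_grp, by norm_num⟩
  · rintro ⟨k, hk, hk2⟩
    by_contra hcon
    have h1 := (four hq hpq (by omega)).2 hk
    omega
  · intro h
    exact ⟨17, grpSizes_mono (p := 17) (q := 7) (by norm_num) (by norm_num) hq (by omega)
      seventeen_grp, by norm_num⟩

end Pool.Agent.Results.MP_fc334d_co.SubgroupThresholds
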